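import Mathlib

/-!
# Linear-size cut sparsifiers for hypergraphs (MP_7023e6_lc, S14877)

Definitions shared by all modules.  Cuts are functions `S : V → ZMod 2`, hyperedges are finsets of
vertices.
-/

set_option autoImplicit false

namespace Pool.Agent.H21.HS

open Finset

/-- The sign of a bit. -/
def sg (a : ZMod 2) : ℝ := if a = 0 then 1 else -1

/-- The character of the vertex set `T` at the cut `S`. -/
def ch {V : Type} (T : Finset V) (S : V → ZMod 2) : ℝ := ∏ v ∈ T, sg (S v)

open Classical in
/-- `1` if the cut `S` splits the hyperedge `e` (is not constant on it), `0` otherwise. -/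
noncomputable def dl {V : Type} (e : Finset V) (S : V → ZMod 2) : ℝ :=
  if ∃ u ∈ e, ∃ v ∈ e, S u ≠ S v then 1 else 0

/-- The subsets of `e` of even cardinality. -/
def ev {V : Type} (e : Finset V) : Finset (Finset V) :=
  e.powerset.filter (fun T => Even T.card)

/-- Empirical mean of the character of `T` over the `B` sets of class `(l, s)`. -/
noncomputable def emp {V : Type} {N B : ℕ} (om : Fin N → Bool → Fin B → V → ZMod 2)
    (l : Fin N) (s : Bool) (T : Finset V) : ℝ :=
  (∑ b, ch T (om l s b)) / B

/-- The decoded value at the hyperedge `e`: average over the even subsets `T` of `e` of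
`-log` of the (truncated) empirical mean. -/
noncomputable def phi {V : Type} {N B : ℕ} (om : Fin N → Bool → Fin B → V → ZMod 2)
    (l : Fin N) (s : Bool) (e : Finset V) : ℝ :=
  (∑ T ∈ ev e, -Real.log (max (emp om l s T) (Real.exp (-1 / 2)))) / ((ev e).card : ℝ)

open Classical in
/-- The cost of the bits of `om` on the pairs `g = (e, u, v) ∈ T`: for each class `l ≤ lev e`, each
sign and each `b`, a pair which is split costs `lev e - l + 1`. -/
noncomputable def cost {V E : Type} {N B : ℕ} (lev : E → Fin N) (T : Finset (E × V × V))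
    (om : Fin N → Bool → Fin B → V → ZMod 2) : ℝ :=
  ∑ g ∈ T, ∑ l : Fin N, ∑ s : Bool, ∑ b : Fin B,
    if (l ≤ lev g.1 ∧ om l s b g.2.1 ≠ om l s b g.2.2) then
      (((lev g.1 : ℕ) - (l : ℕ) : ℕ) : ℝ) + 1 else 0

end Pool.Agent.H21.HS
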