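import Pool.Agent.H21.HS.PC

/-!
# Passage from cuts as functions to cuts as finsets
-/

set_option autoImplicit false

namespace Pool.Agent.H21.HS

open Finset

lemma dl_ind {V : Type} [DecidableEq V] (e S : Finset V) :
    dl e (fun v => if v ∈ S then (1 : ZMod 2) else 0)
      = if ((e ∩ S).Nonempty ∧ (e \ S).Nonempty) then 1 else 0 := by
  unfold dl
  have h : (∃ u ∈ e, ∃ v ∈ e, (if u ∈ S then (1 : ZMod 2) else 0) ≠ (if v ∈ S then (1 : ZMod 2)
      else 0)) ↔ ((e ∩ S).Nonempty ∧ (e \ S).Nonempty) := by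
    constructor
    · rintro ⟨u, hu, v, hv, h⟩
      by_cases h1 : u ∈ S <;> by_cases h2 : v ∈ S
      · simp [h1, h2] at h
      · exact ⟨⟨u, mem_inter.2 ⟨hu, h1⟩⟩, ⟨v, mem_sdiff.2 ⟨hv, h2⟩⟩⟩
      · exact ⟨⟨v, mem_inter.2 ⟨hv, h2⟩⟩, ⟨u, mem_sdiff.2 ⟨hu, h1⟩⟩⟩
      · simp [h1, h2] at h
    · rintro ⟨⟨u, hu⟩, ⟨v, hv⟩⟩
      obtain ⟨hu1, hu2⟩ := mem_inter.1 hu
      obtain ⟨hv1, hv2⟩ := mem_sdiff.1 hv
      exact ⟨u, hu1, v, hv1, by simp [hu2, hv2]⟩
  by_cases h' : ((e ∩ S).Nonempty ∧ (e \ S).Nonempty)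
  · rw [if_pos (h.2 h'), if_pos h']
  · rw [if_neg (fun h2 => h' (h.1 h2)), if_neg h']

lemma sum_ind {V : Type} [Fintype V] [DecidableEq V] (w : Finset V → ℝ) (S : Finset V) :
    ∑ e ∈ (univ : Finset (Finset V)).filter (fun e => (e ∩ S).Nonempty ∧ (e \ S).Nonempty), w e
      = ∑ e, w e * dl e (fun v => if v ∈ S then (1 : ZMod 2) else 0) := by
  rw [Finset.sum_filter]
  refine Finset.sum_congr rfl fun e _ => ?_
  rw [dl_ind]
  by_cases h' : ((e ∩ S).Nonempty ∧ (e \ S).Nonempty)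
  · rw [if_pos h', if_pos h', mul_one]
  · rw [if_neg h', if_neg h', mul_zero]

/-- The final statement, for an arbitrary decidability instance of `w' e ≠ 0`. -/
theorem final (h : T_iter) :
    ∃ C : ℝ, 0 < C ∧
      ∀ (V : Type) [Fintype V] [DecidableEq V] (w : Finset V → ℝ),
        (∀ e, 0 ≤ w e) →
        ∀ ε : ℝ, 0 < ε → ε < 1 / 2 →
          ∃ w' : Finset V → ℝ,
            (∀ e, 0 ≤ w' e) ∧
            (((Finset.univ : Finset (Finset V)).filter (fun e => w' e ≠ 0)).card : ℝ)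
                ≤ C * (Fintype.card V : ℝ) / ε ^ 2 ∧
            ∀ S : Finset V,
              (1 - ε) * (∑ e ∈ (Finset.univ : Finset (Finset V)).filter
                  (fun e => (e ∩ S).Nonempty ∧ (e \ S).Nonempty), w e)
                ≤ (∑ e ∈ (Finset.univ : Finset (Finset V)).filter
                  (fun e => (e ∩ S).Nonempty ∧ (e \ S).Nonempty), w' e) ∧
              (∑ e ∈ (Finset.univ : Finset (Finset V)).filter
                  (fun e => (e ∩ S).Nonempty ∧ (e \ S).Nonempty), w' e)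
                ≤ (1 + ε) * (∑ e ∈ (Finset.univ : Finset (Finset V)).filter
                  (fun e => (e ∩ S).Nonempty ∧ (e \ S).Nonempty), w e) := by
  obtain ⟨C, hC, hall⟩ := h
  refine ⟨C, hC, ?_⟩
  intro V _ _ w hw ε hε hε2
  obtain ⟨w', h1, h2, h3⟩ := hall V w hw ε hε hε2
  refine ⟨w', h1, ?_, ?_⟩
  · exact h2
  · intro S
    rw [sum_ind, sum_ind]
    exact h3 _

end Pool.Agent.H21.HS
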