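import Pool.Agent.H21.HS.Targets

/-!
# Module PC: the partial colouring theorem from duality, counting and the hashing code
-/

set_option autoImplicit false

namespace Pool.Agent.H21.HS

open Finset

/-- Geometric bound for the exponential costs. -/
lemma sum_exp_le (N : ℕ) (k : Fin N) :
    ∑ l : Fin N, (if l ≤ k then Real.exp (-((((k : ℕ) - (l : ℕ) : ℕ) : ℝ) + 1)) else 0) ≤ 1 := by
  have hexp : Real.exp (-1) ≤ 1 / 2 := by
    have h2 : (2 : ℝ) ≤ Real.exp 1 := by
      have := Real.add_one_le_exp (1 : ℝ); linarith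
    rw [Real.exp_neg, one_div]
    exact inv_anti₀ (by norm_num) h2
  have hterm : ∀ l : Fin N, (if l ≤ k then Real.exp (-((((k : ℕ) - (l : ℕ) : ℕ) : ℝ) + 1)) else 0)
      ≤ (if (l : ℕ) < (k : ℕ) + 1 then ((1 : ℝ) / 2) ^ ((k : ℕ) + 1 - 1 - (l : ℕ) + 1) else 0) := by
    intro l
    by_cases h : l ≤ k
    · have h' : (l : ℕ) < (k : ℕ) + 1 := Nat.lt_succ_of_le h
      rw [if_pos h, if_pos h']
      have e1 : Real.exp (-((((k : ℕ) - (l : ℕ) : ℕ) : ℝ) + 1))
          = Real.exp (-1) ^ ((k : ℕ) - (l : ℕ) + 1) := by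
        rw [← Real.exp_nat_mul]
        congr 1
        push_cast
        ring
      rw [e1]
      have e2 : (k : ℕ) + 1 - 1 - (l : ℕ) + 1 = (k : ℕ) - (l : ℕ) + 1 := by omega
      rw [e2]
      exact pow_le_pow_left₀ (Real.exp_pos _).le hexp _
    · rw [if_neg h]
      split_ifs
      · positivity
      · exact le_refl _
  refine (Finset.sum_le_sum fun l _ => hterm l).trans ?_
  rw [Fin.sum_univ_eq_sum_range
    (fun l => if l < (k : ℕ) + 1 then ((1 : ℝ) / 2) ^ ((k : ℕ) + 1 - 1 - l + 1) else 0) N]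
  rw [← Finset.sum_filter]
  have hsub : (range N).filter (fun l => l < (k : ℕ) + 1) ⊆ range ((k : ℕ) + 1) := by
    intro l hl
    simp only [mem_filter, mem_range] at hl ⊢
    exact hl.2
  refine (Finset.sum_le_sum_of_subset_of_nonneg hsub (fun _ _ _ => by positivity)).trans ?_
  rw [Finset.sum_range_reflect (fun a => ((1 : ℝ) / 2) ^ (a + 1)) ((k : ℕ) + 1)]
  have hg : ∀ n : ℕ, ∑ a ∈ range n, ((1 : ℝ) / 2) ^ (a + 1) = 1 - (1 / 2) ^ n := by
    intro n
    induction n with
    | zero => simp
    | succ n ih => rw [Finset.sum_range_succ, ih]; ring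
  rw [hg]
  have : (0 : ℝ) ≤ (1 / 2) ^ ((k : ℕ) + 1) := by positivity
  linarith

/-! ### The index sets of the code -/

section Code

variable {V E : Type} [Fintype V] [DecidableEq V] [Fintype E] [DecidableEq E]

/-- Index set of the bits: pairs `g = (e,u,v)` in `T`, class `l`, sign, number. -/
def JG {N : ℕ} (B : ℕ) (lev : E → Fin N) (T : Finset (E × V × V)) :
    Finset ((E × V × V) × Fin N × Bool × Fin B) :=
  univ.filter (fun j => j.1 ∈ T ∧ j.2.1 ≤ lev j.1.1)

/-- The cost of an index. -/
noncomputable def cj {N B : ℕ} (lev : E → Fin N) (j : (E × V × V) × Fin N × Bool × Fin B) : ℝ :=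
  (((lev j.1.1 : ℕ) - (j.2.1 : ℕ) : ℕ) : ℝ) + 1

/-- The bits of `om`. -/
def XG {N B : ℕ} (lev : E → Fin N) (T : Finset (E × V × V))
    (om : Fin N → Bool → Fin B → V → ZMod 2) :
    Finset ((E × V × V) × Fin N × Bool × Fin B) :=
  (JG B lev T).filter (fun j => om j.2.1 j.2.2.1 j.2.2.2 j.1.2.1 ≠ om j.2.1 j.2.2.1 j.2.2.2 j.1.2.2)

lemma sum_XG {N B : ℕ} (lev : E → Fin N) (T : Finset (E × V × V))
    (om : Fin N → Bool → Fin B → V → ZMod 2) :
    ∑ j ∈ XG lev T om, cj lev j = cost lev T om := by
  classical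
  unfold XG JG cost
  rw [Finset.filter_filter, Finset.sum_filter, Fintype.sum_prod_type]
  rw [← Finset.sum_subset (Finset.subset_univ T)]
  · refine Finset.sum_congr rfl fun g hg => ?_
    rw [Fintype.sum_prod_type]
    refine Finset.sum_congr rfl fun l _ => ?_
    rw [Fintype.sum_prod_type]
    refine Finset.sum_congr rfl fun s _ => ?_
    refine Finset.sum_congr rfl fun b _ => ?_
    simp only [hg, true_and, cj]
  · intro g _ hg
    refine Finset.sum_eq_zero fun p _ => ?_
    rw [if_neg]
    simp [hg]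

lemma sum_JG {N B : ℕ} (lev : E → Fin N) (T : Finset (E × V × V)) :
    ∑ j ∈ JG B lev T, Real.exp (-cj lev j) ≤ 2 * B * T.card := by
  classical
  unfold JG
  rw [Finset.sum_filter, Fintype.sum_prod_type]
  rw [← Finset.sum_subset (Finset.subset_univ T)]
  · have : ∀ g ∈ T, ∑ p : Fin N × Bool × Fin B,
        (if (g, p).1 ∈ T ∧ (g, p).2.1 ≤ lev (g, p).1.1 then Real.exp (-cj lev (g, p)) else 0)
        ≤ 2 * B := by
      intro g hg
      rw [Fintype.sum_prod_type]
      have h1 : ∀ l : Fin N, ∑ q : Bool × Fin B,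
          (if (g, (l, q)).1 ∈ T ∧ (g, (l, q)).2.1 ≤ lev (g, (l, q)).1.1 then
            Real.exp (-cj lev (g, (l, q))) else 0)
          = (2 * B) * (if l ≤ lev g.1 then
            Real.exp (-((((lev g.1 : ℕ) - (l : ℕ) : ℕ) : ℝ) + 1)) else 0) := by
        intro l
        simp only [hg, true_and, cj]
        rw [Finset.sum_const, nsmul_eq_mul, Finset.card_univ, Fintype.card_prod, Fintype.card_bool,
          Fintype.card_fin]
        push_cast
        rfl
      rw [Finset.sum_congr rfl fun l _ => h1 l, ← Finset.mul_sum]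
      calc _ ≤ (2 * (B : ℝ)) * 1 :=
            mul_le_mul_of_nonneg_left (sum_exp_le N (lev g.1)) (by positivity)
        _ = _ := by ring
    refine (Finset.sum_le_sum this).trans ?_
    rw [Finset.sum_const, nsmul_eq_mul]
    apply le_of_eq
    ring
  · intro g _ hg
    refine Finset.sum_eq_zero fun p _ => ?_
    rw [if_neg]
    simp [hg]

end Code

lemma levels {E : Type} [Fintype E] [Nonempty E] (w : E → ℝ) (hw : ∀ e, 0 < w e) :
    ∃ (w0 : ℝ) (N : ℕ) (lev : E → Fin N), 0 < w0 ∧
      ∀ e, 2 ^ (lev e : ℕ) * w0 ≤ w e ∧ w e < 2 * (2 ^ (lev e : ℕ) * w0) := by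
  classical
  obtain ⟨e0, -, he0⟩ := Finset.exists_min_image (univ : Finset E) w Finset.univ_nonempty
  have hw0 : 0 < w e0 := hw e0
  have hk : ∀ e, ∃ k : ℕ, (2 : ℝ) ^ k ≤ w e / w e0 ∧ w e / w e0 < 2 ^ (k + 1) := by
    intro e
    refine exists_nat_pow_near ?_ (by norm_num)
    rw [le_div_iff₀ hw0, one_mul]
    exact he0 e (mem_univ e)
  choose k hk1 hk2 using hk
  have hlt : ∀ e, k e < univ.sup k + 1 := fun e =>
    Nat.lt_succ_of_le (Finset.le_sup (mem_univ e))
  refine ⟨w e0, univ.sup k + 1, fun e => ⟨k e, hlt e⟩, hw0, fun e => ⟨?_, ?_⟩⟩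
  · have := hk1 e
    rw [le_div_iff₀ hw0] at this
    exact this
  · have := hk2 e
    rw [div_lt_iff₀ hw0, pow_succ] at this
    linarith

section Main

variable {V E : Type} [Fintype V] [DecidableEq V] [Fintype E]

open Classical in
/-- The sign decoded from `om`. -/
noncomputable def ref {N B : ℕ} (supp : E → Finset V) (lev : E → Fin N) (G : Finset E)
    (om : Fin N → Bool → Fin B → V → ZMod 2) (e : E) : Bool :=
  if e ∈ G then decide (0 < phi om (lev e) true (supp e) - phi om (lev e) false (supp e))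
  else true

omit [Fintype V] [DecidableEq V] in
lemma dl_nonneg (e : Finset V) (S : V → ZMod 2) : 0 ≤ dl e S := by
  unfold dl
  split_ifs <;> norm_num

open Classical in
set_option maxHeartbeats 1600000 in
lemma key (h3 : T_dual) (h4 : T_code) (supp : E → Finset V) (w : E → ℝ) (ε : ℝ)
    (hw : ∀ e, 0 < w e) (hε : 0 < ε) (N B : ℕ) (lev : E → Fin N) (w0 : ℝ)
    (hw0 : 0 < w0) (hlev : ∀ e, 2 ^ (lev e : ℕ) * w0 ≤ w e ∧ w e < 2 * (2 ^ (lev e : ℕ) * w0))
    (hB : 1500000000 / ε ^ 2 ≤ (B : ℝ)) (hm : 0 < Fintype.card E) (hn : 0 < Fintype.card V)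
    (T : Finset E → Finset (E × V × V))
    (hT1 : ∀ G, (T G).card ≤ Fintype.card V)
    (hT2 : ∀ G, ∀ g ∈ T G, g.1 ∈ G ∧ g.2.1 ∈ supp g.1 ∧ g.2.2 ∈ supp g.1)
    (hcon : ∀ x : E → ℝ, (∀ e, |x e| ≤ 1) →
      (∀ S : V → ZMod 2, |∑ e, x e * (w e * dl (supp e) S)| ≤ ε * ∑ e, w e * dl (supp e) S) →
      ((univ.filter (fun e => |x e| = 1)).card : ℝ) < (Fintype.card E : ℝ) / 100)
    (s : E → Bool) :
    ∃ (G : Finset E) (om : Fin N → Bool → Fin B → V → ZMod 2),
      ((univ \ G).card : ℝ) ≤ (Fintype.card E : ℝ) / 100 ∧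
      cost lev (T G) om ≤ 4 * B * Fintype.card V ∧
      ((univ.filter (fun e => s e ≠ ref supp lev G om e)).card : ℝ)
        ≤ 3 * (Fintype.card E : ℝ) / 100 := by
  set m : ℝ := (Fintype.card E : ℝ) with hmdef
  set n : ℝ := (Fintype.card V : ℝ) with hndef
  have hm0 : 0 < m := by rw [hmdef]; exact_mod_cast hm
  have hn0 : 0 < n := by rw [hndef]; exact_mod_cast hn
  have hε2 : 0 < ε ^ 2 := by positivity
  have hB0 : (0 : ℝ) < B := lt_of_lt_of_le (by positivity) hB
  have hB0' : 0 < B := by exact_mod_cast hB0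
  -- duality
  set sv : E → ℝ := fun e => if s e then 1 else -1 with hsv
  have hsv1 : ∀ e, |sv e| = 1 := by
    intro e
    simp only [hsv]
    split_ifs <;> norm_num
  set f : (V → ZMod 2) → ℝ := fun S => ∑ e, w e * dl (supp e) S with hf
  have hwd : ∀ S e, 0 ≤ w e * dl (supp e) S := fun S e => mul_nonneg (hw e).le (dl_nonneg _ _)
  have hf0 : ∀ S, 0 ≤ f S := fun S => Finset.sum_nonneg fun e _ => hwd S e
  obtain ⟨x, hx1, hx2, y, hy1, hy2⟩ := h3 E (V → ZMod 2) (fun S e => w e * dl (supp e) S)
    (fun S => ε * f S) (fun S => mul_nonneg hε.le (hf0 S))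
    (by
      intro S hS e
      have h0 : f S = 0 := by
        rcases mul_eq_zero.1 hS with h | h
        · exact absurd h hε.ne'
        · exact h
      exact (Finset.sum_eq_zero_iff_of_nonneg (fun e _ => hwd S e)).1 h0 e (mem_univ e)) sv
  have hI := hcon x hx1 hx2
  have hy3 : ∑ S, |y S| * f S ≤ m / ε := by
    have h1 : ∑ S, |y S| * (ε * f S) = ε * ∑ S, |y S| * f S := by
      rw [Finset.mul_sum]
      exact Finset.sum_congr rfl fun S _ => by ring
    rw [h1] at hy2
    have h2 : ∑ e, |sv e| = m := by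
      rw [Finset.sum_congr rfl fun e _ => hsv1 e]
      simp [hmdef]
    rw [h2] at hy2
    rw [le_div_iff₀ hε]
    linarith
  -- the good set
  set kap : E → ℝ := fun e => w e * ∑ S, |y S| * dl (supp e) S with hkap
  have hkap0 : ∀ e, 0 ≤ kap e := fun e =>
    mul_nonneg (hw e).le (Finset.sum_nonneg fun S _ => mul_nonneg (abs_nonneg _) (dl_nonneg _ _))
  have hkapsum : ∑ e, kap e = ∑ S, |y S| * f S := by
    simp only [hkap, hf, Finset.mul_sum]
    rw [Finset.sum_comm]
    exact Finset.sum_congr rfl fun S _ => Finset.sum_congr rfl fun e _ => by ring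
  set G : Finset E := univ.filter (fun e => kap e ≤ 100 / ε) with hG
  have hGc : ((univ \ G).card : ℝ) ≤ m / 100 := by
    have h1 : ((univ \ G).card : ℝ) * (100 / ε) ≤ ∑ e ∈ univ \ G, kap e := by
      rw [← nsmul_eq_mul, ← Finset.sum_const]
      refine Finset.sum_le_sum fun e he => ?_
      have : e ∉ G := (Finset.mem_sdiff.1 he).2
      simp only [hG, mem_filter, mem_univ, true_and, not_le] at this
      exact this.le
    have h2 : ∑ e ∈ univ \ G, kap e ≤ ∑ e, kap e :=
      Finset.sum_le_sum_of_subset_of_nonneg (Finset.subset_univ _) fun e _ _ => hkap0 e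
    have h3 : ((univ \ G).card : ℝ) * (100 / ε) ≤ m / ε := by
      rw [hkapsum] at h2
      linarith
    have h4 : ((univ \ G).card : ℝ) * (100 / ε) = (((univ \ G).card : ℝ) * 100) / ε := by ring
    rw [h4, div_le_div_iff_of_pos_right hε] at h3
    linarith
  -- the code
  set t : ℝ := ε * w0 / 400 with ht
  have ht0 : 0 < t := by positivity
  have hc1 : ∀ e ∈ G, t * 2 ^ (lev e : ℕ) * ∑ S, |y S| * dl (supp e) S ≤ 1 / 4 := by
    intro e he
    simp only [hG, mem_filter, mem_univ, true_and] at he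
    have h1 : t * 2 ^ (lev e : ℕ) = ε / 400 * (2 ^ (lev e : ℕ) * w0) := by rw [ht]; ring
    rw [h1]
    have hnn : 0 ≤ ∑ S, |y S| * dl (supp e) S :=
      Finset.sum_nonneg fun S _ => mul_nonneg (abs_nonneg _) (dl_nonneg _ _)
    calc ε / 400 * (2 ^ (lev e : ℕ) * w0) * ∑ S, |y S| * dl (supp e) S
        ≤ ε / 400 * w e * ∑ S, |y S| * dl (supp e) S := by
          refine mul_le_mul_of_nonneg_right ?_ hnn
          exact mul_le_mul_of_nonneg_left (hlev e).1 (by positivity)
      _ = ε / 400 * kap e := by rw [hkap]; ring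
      _ ≤ ε / 400 * (100 / ε) := mul_le_mul_of_nonneg_left he (by positivity)
      _ = 1 / 4 := by field_simp; norm_num
  obtain ⟨om, hom⟩ := h4 V E N B supp lev y t G (T G) hB0' ht0.le hc1 (hT2 G)
    ((B : ℝ) / (11 * m)) (1 / (2 * B * n)) (by positivity) (by positivity)
  set S1 : ℝ := ∑ e ∈ G, (phi om (lev e) true (supp e) - phi om (lev e) false (supp e)
        - t * 2 ^ (lev e : ℕ) * ∑ S, y S * dl (supp e) S) ^ 2 with hS1
  have hS10 : 0 ≤ S1 := Finset.sum_nonneg fun e _ => sq_nonneg _
  have hcost0 : 0 ≤ cost lev (T G) om := by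
    unfold cost
    refine Finset.sum_nonneg fun g _ => Finset.sum_nonneg fun l _ => Finset.sum_nonneg fun s _ =>
      Finset.sum_nonneg fun b _ => ?_
    split_ifs
    · positivity
    · exact le_refl _
  have hrhs : (B : ℝ) / (11 * m) * ((G.card : ℝ) * (11 / B)) + 1 / (2 * B * n) *
      (2 * B * (T G).card) ≤ 2 := by
    have hg1 : (G.card : ℝ) ≤ m := by
      rw [hmdef]; exact_mod_cast Finset.card_le_univ G
    have hg2 : ((T G).card : ℝ) ≤ n := by
      rw [hndef]; exact_mod_cast hT1 G
    have e1 : (B : ℝ) / (11 * m) * ((G.card : ℝ) * (11 / B)) = (G.card : ℝ) / m := by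
      field_simp
    have e2 : 1 / (2 * B * n) * (2 * B * ((T G).card : ℝ)) = ((T G).card : ℝ) / n := by
      field_simp
    rw [e1, e2]
    have := (div_le_one hm0).2 hg1
    have := (div_le_one hn0).2 hg2
    linarith
  have htot := hom.trans hrhs
  have hcost : cost lev (T G) om ≤ 4 * B * n := by
    have h1 : 1 / (2 * B * n) * cost lev (T G) om ≤ 2 := by
      have : 0 ≤ (B : ℝ) / (11 * m) * S1 := by positivity
      linarith
    have h2 : cost lev (T G) om = (2 * B * n) * (1 / (2 * B * n) * cost lev (T G) om) := by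
      field_simp
    rw [h2]
    calc (2 * (B : ℝ) * n) * (1 / (2 * B * n) * cost lev (T G) om) ≤ (2 * B * n) * 2 :=
          mul_le_mul_of_nonneg_left h1 (by positivity)
      _ = 4 * B * n := by ring
  have hS1b : S1 ≤ 22 * m / B := by
    have h1 : (B : ℝ) / (11 * m) * S1 ≤ 2 := by
      have : 0 ≤ 1 / (2 * B * n) * cost lev (T G) om := by positivity
      linarith
    have h2 : S1 = (11 * m / B) * ((B : ℝ) / (11 * m) * S1) := by
      field_simp
    rw [h2]
    calc (11 * m / B) * ((B : ℝ) / (11 * m) * S1) ≤ (11 * m / B) * 2 :=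
          mul_le_mul_of_nonneg_left h1 (by positivity)
      _ = 22 * m / B := by ring
  refine ⟨G, om, hGc, hcost, ?_⟩
  -- the errors
  set Bad : Finset E := univ.filter (fun e => s e ≠ ref supp lev G om e) with hBad
  set I : Finset E := univ.filter (fun e => |x e| = 1) with hIdef
  set Q : Finset E := G.filter (fun e => s e ≠ ref supp lev G om e ∧ |x e| < 1) with hQ
  have hsub : Bad ⊆ I ∪ (univ \ G) ∪ Q := by
    intro e he
    simp only [hBad, mem_filter, mem_univ, true_and] at he
    simp only [hIdef, hQ, mem_union, mem_filter, mem_univ, true_and, mem_sdiff]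
    by_cases h1 : e ∈ G
    · rcases lt_or_eq_of_le (hx1 e) with h2 | h2
      · exact Or.inr ⟨h1, he, h2⟩
      · exact Or.inl (Or.inl h2)
    · exact Or.inl (Or.inr h1)
  have hQc : (Q.card : ℝ) ≤ m / 100 := by
    have h1 : (Q.card : ℝ) * (ε / 800) ^ 2 ≤ S1 := by
      rw [← nsmul_eq_mul, ← Finset.sum_const]
      have hQG : Q ⊆ G := Finset.filter_subset _ _
      refine le_trans ?_ (Finset.sum_le_sum_of_subset_of_nonneg hQG
        fun e _ _ => sq_nonneg _)
      refine Finset.sum_le_sum fun e he => ?_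
      have he' := Finset.mem_filter.1 he
      obtain ⟨heG, hne, hxe⟩ := he'
      have hz := hy1 e hxe
      -- z_e
      have hz2 : w e * ∑ S, y S * dl (supp e) S = sv e := by
        rw [← hz, Finset.mul_sum]
        exact Finset.sum_congr rfl fun S _ => by ring
      have hwe := hw e
      have hz3 : ∑ S, y S * dl (supp e) S = sv e / w e := by
        rw [eq_div_iff hwe.ne', mul_comm]
        exact hz2
      rw [hz3]
      have hr : ε / 800 < t * 2 ^ (lev e : ℕ) / w e := by
        rw [lt_div_iff₀ hwe]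
        have h2 := (hlev e).2
        have h1 : t * 2 ^ (lev e : ℕ) = ε / 400 * (2 ^ (lev e : ℕ) * w0) := by rw [ht]; ring
        rw [h1]
        have : ε / 800 * w e < ε / 800 * (2 * (2 ^ (lev e : ℕ) * w0)) :=
          mul_lt_mul_of_pos_left h2 (by positivity)
        linarith
      set r : ℝ := t * 2 ^ (lev e : ℕ) / w e with hrdef
      have hr' : t * 2 ^ (lev e : ℕ) * (sv e / w e) = r * sv e := by rw [hrdef]; ring
      rw [hr']
      have hε8 : 0 < ε / 800 := by positivity
      set d : ℝ := phi om (lev e) true (supp e) - phi om (lev e) false (supp e) with hd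
      have href : ref supp lev G om e = decide (0 < d) := by
        unfold ref
        rw [if_pos heG]
      rw [href] at hne
      rcases Bool.eq_false_or_eq_true (s e) with hs | hs
      · -- s e = true
        have hd0 : ¬ (0 < d) := by
          intro h
          apply hne
          rw [hs]
          simp [h]
        have hsve : sv e = 1 := by simp only [hsv, hs]; simp
        rw [hsve]
        have : ε / 800 ≤ r * 1 - d := by linarith
        nlinarith
      · have hd0 : 0 < d := by
          by_contra h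
          apply hne
          rw [hs]
          simp [h]
        have hsve : sv e = -1 := by simp only [hsv, hs]; simp
        rw [hsve]
        have : ε / 800 ≤ d - r * (-1) := by linarith
        nlinarith
    have h2 : (Q.card : ℝ) * (ε / 800) ^ 2 ≤ 22 * m / B := h1.trans hS1b
    have h3 : (Q.card : ℝ) ≤ (22 * m / B) * (800 / ε) ^ 2 := by
      have : (Q.card : ℝ) = ((Q.card : ℝ) * (ε / 800) ^ 2) * (800 / ε) ^ 2 := by
        field_simp
      rw [this]
      exact mul_le_mul_of_nonneg_right h2 (by positivity)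
    refine h3.trans ?_
    have h4 : 1500000000 ≤ (B : ℝ) * ε ^ 2 := by
      rw [div_le_iff₀ hε2] at hB
      exact hB
    have h5 : (22 * m / B) * (800 / ε) ^ 2 = 14080000 * m / (B * ε ^ 2) := by
      field_simp
      norm_num
    rw [h5, div_le_div_iff₀ (by positivity) (by norm_num)]
    nlinarith
  calc (Bad.card : ℝ) ≤ ((I ∪ (univ \ G) ∪ Q).card : ℝ) := by
        exact_mod_cast Finset.card_le_card hsub
    _ ≤ (I.card : ℝ) + ((univ \ G).card : ℝ) + (Q.card : ℝ) := by
        have h1 := Finset.card_union_le (I ∪ (univ \ G)) Q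
        have h2 := Finset.card_union_le I (univ \ G)
        have h3 : (I ∪ (univ \ G) ∪ Q).card ≤ I.card + (univ \ G).card + Q.card := by omega
        exact_mod_cast h3
    _ ≤ 3 * m / 100 := by linarith

end Main

/-- The numerical inequality of the counting. -/
lemma final_num (m q : ℝ) (hm : 1 ≤ m) (hq : q ≤ m / 10) :
    Real.exp (m / 25 + m * Real.exp (-4)) * Real.exp (9 * m / 100 + m * Real.exp (-3))
      * Real.exp q < Real.exp (m * Real.log 2) := by
  rw [← Real.exp_add, ← Real.exp_add, Real.exp_lt_exp]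
  have h1 : (2.7 : ℝ) ≤ Real.exp 1 := by
    have := Real.exp_one_gt_d9; linarith
  have h3 : Real.exp (-3) ≤ 1 / 10 := by
    have : Real.exp (-3) = (Real.exp 1 ^ 3)⁻¹ := by
      rw [← Real.exp_nat_mul, Real.exp_neg]; norm_num
    rw [this, one_div]
    apply inv_anti₀ (by norm_num)
    calc (10 : ℝ) ≤ 2.7 ^ 3 := by norm_num
      _ ≤ Real.exp 1 ^ 3 := pow_le_pow_left₀ (by norm_num) h1 3
  have h4 : Real.exp (-4) ≤ 1 / 10 := by
    refine le_trans ?_ h3
    exact Real.exp_le_exp.2 (by norm_num)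
  have h5 : (0.69 : ℝ) < Real.log 2 := by
    have := Real.log_two_gt_d9; linarith
  have hm0 : 0 < m := by linarith
  have a1 : m * Real.exp (-3) ≤ m * (1 / 10) := mul_le_mul_of_nonneg_left h3 hm0.le
  have a2 : m * Real.exp (-4) ≤ m * (1 / 10) := mul_le_mul_of_nonneg_left h4 hm0.le
  have a3 : m * 0.69 < m * Real.log 2 := mul_lt_mul_of_pos_left h5 hm0
  linarith

open Classical in
set_option maxHeartbeats 1600000 in
/-- The partial colouring theorem. -/
theorem pc (h1 : T_for) (h2 : T_cnt) (h3 : T_dual) (h4 : T_code) (h5 : T_det) : T_pc := by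
  refine ⟨100000000000, by norm_num, ?_⟩
  intro V E _ _ _ supp w ε hw hε hε1 hm
  by_contra hno
  -- nonempty E
  have hE : Nonempty E := by
    by_contra hE
    rw [not_nonempty_iff] at hE
    apply hno
    refine ⟨fun _ => 1, fun _ => by norm_num, ?_, fun S => ?_⟩
    · simp
    · simp
  have hm1 : 0 < Fintype.card E := Fintype.card_pos
  have hVn : 0 < Fintype.card V := by
    by_contra hV
    have hV' : IsEmpty V := Fintype.card_eq_zero_iff.1 (by omega)
    apply hno
    refine ⟨fun _ => 1, fun _ => by norm_num, ?_, fun S => ?_⟩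
    · simp only [abs_one, Finset.filter_true, Finset.card_univ]
      have : (0 : ℝ) ≤ (Fintype.card E : ℝ) := by positivity
      linarith
    · have : ∀ e, dl (supp e) S = 0 := by
        intro e
        unfold dl
        rw [if_neg]
        rintro ⟨u, -⟩
        exact hV'.false u
      simp [this]
  have hcon : ∀ x : E → ℝ, (∀ e, |x e| ≤ 1) →
      (∀ S : V → ZMod 2, |∑ e, x e * (w e * dl (supp e) S)| ≤ ε * ∑ e, w e * dl (supp e) S) →
      ((univ.filter (fun e => |x e| = 1)).card : ℝ) < (Fintype.card E : ℝ) / 100 := by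
    intro x hx hx2
    by_contra h
    exact hno ⟨x, hx, not_lt.1 h, hx2⟩
  obtain ⟨w0, N, lev, hw0, hlev⟩ := levels w hw
  set B : ℕ := ⌈1500000000 / ε ^ 2⌉₊ with hBdef
  have hB : 1500000000 / ε ^ 2 ≤ (B : ℝ) := Nat.le_ceil _
  have hε2 : 0 < ε ^ 2 := by positivity
  have hB2 : (B : ℝ) ≤ 1600000000 / ε ^ 2 := by
    have h := (Nat.ceil_lt_add_one (show (0 : ℝ) ≤ 1500000000 / ε ^ 2 by positivity)).le
    have h' : (1 : ℝ) ≤ 100000000 / ε ^ 2 := by
      rw [le_div_iff₀ hε2]
      nlinarith
    calc (B : ℝ) ≤ 1500000000 / ε ^ 2 + 1 := h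
      _ ≤ 1500000000 / ε ^ 2 + 100000000 / ε ^ 2 := by linarith
      _ = 1600000000 / ε ^ 2 := by ring
  -- the adapted families
  have hfor : ∀ G : Finset E, ∃ T : Finset (E × V × V),
      T ⊆ univ.filter (fun g : E × V × V => g.1 ∈ G ∧ g.2.1 ∈ supp g.1 ∧ g.2.2 ∈ supp g.1) ∧
      T.card ≤ Fintype.card V ∧
      ∀ (l : ℕ) (S S' : V → ZMod 2),
      (∀ g ∈ T, l ≤ (lev g.1 : ℕ) → S g.2.1 + S g.2.2 = S' g.2.1 + S' g.2.2) →
      ∀ g ∈ univ.filter (fun g : E × V × V => g.1 ∈ G ∧ g.2.1 ∈ supp g.1 ∧ g.2.2 ∈ supp g.1),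
        l ≤ (lev g.1 : ℕ) → S g.2.1 + S g.2.2 = S' g.2.1 + S' g.2.2 := fun G =>
    h1 V (E × V × V) _ (fun g => g.2.1) (fun g => g.2.2) (fun g => (lev g.1 : ℕ))
  choose T hTsub hTcard hTspan using hfor
  have hT2 : ∀ G, ∀ g ∈ T G, g.1 ∈ G ∧ g.2.1 ∈ supp g.1 ∧ g.2.2 ∈ supp g.1 := by
    intro G g hg
    have := hTsub G hg
    simpa using this
  have hkey := key h3 h4 supp w ε hw hε N B lev w0 hw0 hlev hB hm1 hVn T hTcard hT2 hcon
  -- determinism
  have hdet : ∀ (G : Finset E) (om om' : Fin N → Bool → Fin B → V → ZMod 2),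
      XG lev (T G) om = XG lev (T G) om' → ∀ e, ref supp lev G om e = ref supp lev G om' e := by
    intro G om om' hX e
    unfold ref
    by_cases he : e ∈ G
    swap
    · rw [if_neg he, if_neg he]
    rw [if_pos he, if_pos he]
    have hphi : ∀ s, phi om (lev e) s (supp e) = phi om' (lev e) s (supp e) := by
      intro s
      refine h5 V N B om om' (lev e) s (supp e) ?_
      intro b u hu v hv
      refine hTspan G (lev e : ℕ) (om (lev e) s b) (om' (lev e) s b) ?_ (e, u, v) ?_ le_rfl
      · intro g hg hle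
        have hmem : (g, lev e, s, b) ∈ JG B lev (T G) := by
          simp only [JG, mem_filter, mem_univ, true_and]
          exact ⟨hg, hle⟩
        have h0 : ∀ a b c d : ZMod 2, ((a ≠ b) ↔ (c ≠ d)) → a + b = c + d := by decide
        apply h0
        have h6 : (g, lev e, s, b) ∈ XG lev (T G) om ↔ (g, lev e, s, b) ∈ XG lev (T G) om' := by
          rw [hX]
        simp only [XG, mem_filter, hmem, true_and] at h6
        exact h6
      · simp only [mem_filter, mem_univ, true_and]
        exact ⟨he, hu, hv⟩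
    rw [hphi true, hphi false]
  -- the code map
  choose G om hG1 hG2 hG3 using hkey
  set m : ℝ := (Fintype.card E : ℝ) with hmdef
  set n : ℝ := (Fintype.card V : ℝ) with hndef
  set A1 : Finset (Finset E) :=
    (univ : Finset E).powerset.filter (fun X => ∑ j ∈ X, (4 : ℝ) ≤ m / 25) with hA1
  set A3 : Finset (Finset E) :=
    (univ : Finset E).powerset.filter (fun X => ∑ j ∈ X, (3 : ℝ) ≤ 9 * m / 100) with hA3
  set A2 : Finset E → Finset (Finset ((E × V × V) × Fin N × Bool × Fin B)) := fun G =>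
    (JG B lev (T G)).powerset.filter (fun X => ∑ j ∈ X, cj lev j ≤ 4 * B * n) with hA2
  set F : Finset E → Finset ((E × V × V) × Fin N × Bool × Fin B) → Finset E → (E → Bool) :=
    fun G X D e => xor (decide (e ∈ D))
      (if h : ∃ om : Fin N → Bool → Fin B → V → ZMod 2, XG lev (T G) om = X then
        ref supp lev G h.choose e else true) with hF
  set K : Finset (E → Bool) := (A1 ×ˢ A3).biUnion
    (fun p => (A2 (univ \ p.1)).image (fun X => F (univ \ p.1) X p.2)) with hK
  have hKuniv : (univ : Finset (E → Bool)) ⊆ K := by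
    intro s _
    set D : Finset E := univ.filter (fun e => s e ≠ ref supp lev (G s) (om s) e) with hD
    rw [hK, Finset.mem_biUnion]
    refine ⟨(univ \ G s, D), ?_, ?_⟩
    · rw [Finset.mem_product]
      constructor
      · simp only [hA1, mem_filter, mem_powerset, Finset.subset_univ, true_and, sum_const,
          nsmul_eq_mul]
        have := hG1 s
        linarith
      · simp only [hA3, mem_filter, mem_powerset, Finset.subset_univ, true_and, sum_const,
          nsmul_eq_mul]
        have := hG3 s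
        linarith
    · have hGG : (univ : Finset E) \ (univ \ G s) = G s := by
        ext e; simp
      simp only [hGG]
      rw [Finset.mem_image]
      refine ⟨XG lev (T (G s)) (om s), ?_, ?_⟩
      · simp only [hA2, mem_filter, mem_powerset]
        refine ⟨Finset.filter_subset _ _, ?_⟩
        rw [sum_XG]
        exact hG2 s
      · funext e
        have hex : ∃ om' : Fin N → Bool → Fin B → V → ZMod 2,
            XG lev (T (G s)) om' = XG lev (T (G s)) (om s) := ⟨om s, rfl⟩
        simp only [hF]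
        rw [dif_pos hex, hdet (G s) _ _ hex.choose_spec e]
        by_cases h : s e = ref supp lev (G s) (om s) e
        · have hnot : e ∉ D := by
            simp only [hD, mem_filter, mem_univ, true_and, not_not]
            exact h
          simp [hnot, h]
        · have hin : e ∈ D := by
            simp only [hD, mem_filter, mem_univ, true_and]
            exact h
          simp only [hin, decide_true, Bool.true_xor]
          cases hs : s e <;> cases hr : ref supp lev (G s) (om s) e <;> simp_all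
  have hcardK : (K.card : ℝ) ≤ (A1.card : ℝ) * (A3.card : ℝ) * Real.exp (6 * B * n) := by
    have hA2c : ∀ G', ((A2 G').card : ℝ) ≤ Real.exp (6 * B * n) := by
      intro G'
      refine (h2 _ (JG B lev (T G')) (cj lev) (4 * B * n)).trans ?_
      rw [Real.exp_le_exp]
      have h6 := sum_JG (B := B) lev (T G')
      have h7 : ((T G').card : ℝ) ≤ n := by
        rw [hndef]; exact_mod_cast hTcard G'
      have h8 : 2 * (B : ℝ) * ((T G').card : ℝ) ≤ 2 * B * n :=
        mul_le_mul_of_nonneg_left h7 (by positivity)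
      linarith
    have h6 : (K.card : ℝ) ≤ ∑ p ∈ A1 ×ˢ A3, ((A2 (univ \ p.1)).card : ℝ) := by
      have h7 := Finset.card_biUnion_le (s := A1 ×ˢ A3)
        (t := fun p => (A2 (univ \ p.1)).image (fun X => F (univ \ p.1) X p.2))
      have h8 : ∑ p ∈ A1 ×ˢ A3, ((A2 (univ \ p.1)).image (fun X => F (univ \ p.1) X p.2)).card
          ≤ ∑ p ∈ A1 ×ˢ A3, (A2 (univ \ p.1)).card :=
        Finset.sum_le_sum fun p _ => Finset.card_image_le
      have h9 := h7.trans h8
      exact_mod_cast h9
    refine h6.trans ?_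
    refine (Finset.sum_le_sum fun p _ => hA2c (univ \ p.1)).trans ?_
    rw [Finset.sum_const, nsmul_eq_mul, Finset.card_product]
    push_cast
    exact le_rfl
  have hA1c : (A1.card : ℝ) ≤ Real.exp (m / 25 + m * Real.exp (-4)) := by
    refine (h2 E univ (fun _ => 4) (m / 25)).trans (le_of_eq ?_)
    rw [Finset.sum_const, nsmul_eq_mul, Finset.card_univ]
  have hA3c : (A3.card : ℝ) ≤ Real.exp (9 * m / 100 + m * Real.exp (-3)) := by
    refine (h2 E univ (fun _ => 3) (9 * m / 100)).trans (le_of_eq ?_)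
    rw [Finset.sum_const, nsmul_eq_mul, Finset.card_univ]
  have hpow : Real.exp (m * Real.log 2) ≤ (K.card : ℝ) := by
    have h6 : Fintype.card (E → Bool) ≤ K.card := by
      rw [← Finset.card_univ]
      exact Finset.card_le_card hKuniv
    have h7 : Fintype.card (E → Bool) = 2 ^ Fintype.card E := by
      rw [Fintype.card_fun, Fintype.card_bool]
    have h8 : Real.exp (m * Real.log 2) = (2 : ℝ) ^ Fintype.card E := by
      rw [mul_comm, hmdef, ← Real.rpow_def_of_pos (by norm_num : (0 : ℝ) < 2), Real.rpow_natCast]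
    rw [h8]
    rw [h7] at h6
    exact_mod_cast h6
  have hq : 6 * B * n ≤ m / 10 := by
    have h6 : 6 * (B : ℝ) * n ≤ 6 * (1600000000 / ε ^ 2) * n := by
      refine mul_le_mul_of_nonneg_right ?_ (by rw [hndef]; positivity)
      exact mul_le_mul_of_nonneg_left hB2 (by norm_num)
    have h7 : 6 * (1600000000 / ε ^ 2) * n ≤ (100000000000 * n / ε ^ 2) / 10 := by
      rw [div_div, le_div_iff₀ (by positivity)]
      have hn0 : 0 ≤ n := by rw [hndef]; positivity
      have e1 : 6 * (1600000000 / ε ^ 2) * n * (ε ^ 2 * 10) = 96000000000 * n := by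
        field_simp
        ring
      rw [e1]
      linarith
    linarith
  have hm1' : (1 : ℝ) ≤ m := by rw [hmdef]; exact_mod_cast hm1
  have hfin := final_num m (6 * B * n) hm1' hq
  have hlast : (K.card : ℝ) ≤ Real.exp (m / 25 + m * Real.exp (-4))
      * Real.exp (9 * m / 100 + m * Real.exp (-3)) * Real.exp (6 * B * n) := by
    refine hcardK.trans ?_
    refine mul_le_mul_of_nonneg_right ?_ (Real.exp_pos _).le
    exact mul_le_mul hA1c hA3c (by positivity) (Real.exp_pos _).le
  linarith

end Pool.Agent.H21.HS
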