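import Pool.Agent.H21.HS.Defs

/-!
# Targets of the modules for MP_7023e6_lc (S14877)
-/

set_option autoImplicit false

namespace Pool.Agent.H21.HS

open Finset

/-- AVG. The average over even subsets. -/
def T_avg : Prop := ∀ (V : Type) [DecidableEq V] (e : Finset V) (S : V → ZMod 2),
  ∑ T ∈ ev e, (1 - ch T S) = ((ev e).card : ℝ) * dl e S

/-- DIST. Compound Poisson distribution on cuts. -/
def T_dist : Prop := ∀ (V : Type) [Fintype V] [DecidableEq V] (lam : (V → ZMod 2) → ℝ),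
  (∀ S, 0 ≤ lam S) →
  ∃ mu : (V → ZMod 2) → ℝ, (∀ S, 0 ≤ mu S) ∧
    ∀ T : Finset V, ∑ S, mu S * ch T S = Real.exp (-∑ S, lam S * (1 - ch T S))

/-- FOR. Spanning family of pairs adapted to the levels. -/
def T_for : Prop := ∀ (V : Type) [Fintype V] [DecidableEq V] (γ : Type) (P : Finset γ)
  (a b : γ → V) (lev : γ → ℕ),
  ∃ T ⊆ P, T.card ≤ Fintype.card V ∧
    ∀ (l : ℕ) (S S' : V → ZMod 2),
      (∀ g ∈ T, l ≤ lev g → S (a g) + S (b g) = S' (a g) + S' (b g)) →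
      ∀ g ∈ P, l ≤ lev g → S (a g) + S (b g) = S' (a g) + S' (b g)

/-- CNT. Counting sets of bounded cost. -/
def T_cnt : Prop := ∀ (J : Type) (s : Finset J) (c : J → ℝ) (L : ℝ),
  ((s.powerset.filter (fun X => ∑ j ∈ X, c j ≤ L)).card : ℝ)
    ≤ Real.exp (L + ∑ j ∈ s, Real.exp (-c j))

/-- DUAL. Linear programming duality for a random linear functional. -/
def T_dual : Prop := ∀ (E C : Type) [Fintype E] [Fintype C] (v : C → E → ℝ) (r : C → ℝ),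
  (∀ S, 0 ≤ r S) → (∀ S, r S = 0 → ∀ e, v S e = 0) → ∀ (s : E → ℝ),
  ∃ x : E → ℝ, (∀ e, |x e| ≤ 1) ∧ (∀ S, |∑ e, x e * v S e| ≤ r S) ∧
    ∃ y : C → ℝ, (∀ e, |x e| < 1 → ∑ S, y S * v S e = s e) ∧
      ∑ S, |y S| * r S ≤ ∑ e, |s e|

/-- VAR. Second moment of an average in a finite product space. -/
def T_var : Prop := ∀ (I W : Type) [Fintype I] [DecidableEq I] [Fintype W] (mu : I → W → ℝ),
  (∀ i w, 0 ≤ mu i w) → (∀ i, ∑ w, mu i w = 1) →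
  ∀ (A : Finset I) (h : W → ℝ) (m : ℝ), A.Nonempty → (∀ w, |h w| ≤ 1) →
    (∀ i ∈ A, ∑ w, mu i w * h w = m) →
    ∑ om : I → W, (∏ i, mu i (om i)) * ((∑ i ∈ A, h (om i)) / (A.card : ℝ) - m) ^ 2
      ≤ 1 / (A.card : ℝ)

/-- MEAN. Expectation of a function of one coordinate, and existence of a point below the
average. -/
def T_mean : Prop := ∀ (I W : Type) [Fintype I] [DecidableEq I] [Fintype W] (mu : I → W → ℝ),
  (∀ i w, 0 ≤ mu i w) → (∀ i, ∑ w, mu i w = 1) →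
  (∀ (i : I) (h : W → ℝ), ∑ om : I → W, (∏ j, mu j (om j)) * h (om i) = ∑ w, mu i w * h w) ∧
  (∀ F : (I → W) → ℝ, ∃ om : I → W, F om ≤ ∑ om : I → W, (∏ j, mu j (om j)) * F om)

/-- CODE. Existence of good sets `om`. -/
def T_code : Prop := ∀ (V E : Type) [Fintype V] [DecidableEq V] [Fintype E] (N B : ℕ)
  (supp : E → Finset V) (lev : E → Fin N) (y : (V → ZMod 2) → ℝ) (t : ℝ)
  (G : Finset E) (T : Finset (E × V × V)),
  0 < B → 0 ≤ t →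
  (∀ e ∈ G, t * 2 ^ (lev e : ℕ) * ∑ S, |y S| * dl (supp e) S ≤ 1 / 4) →
  (∀ g ∈ T, g.1 ∈ G ∧ g.2.1 ∈ supp g.1 ∧ g.2.2 ∈ supp g.1) →
  ∀ P R : ℝ, 0 ≤ P → 0 ≤ R →
  ∃ om : Fin N → Bool → Fin B → V → ZMod 2,
    P * ∑ e ∈ G, (phi om (lev e) true (supp e) - phi om (lev e) false (supp e)
        - t * 2 ^ (lev e : ℕ) * ∑ S, y S * dl (supp e) S) ^ 2
      + R * cost lev T om
    ≤ P * ((G.card : ℝ) * (11 / B)) + R * (2 * B * T.card)

/-- DET. The decoded value depends only on the bits of the pairs of an adapted family. -/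
def T_det : Prop := ∀ (V : Type) [Fintype V] [DecidableEq V] (N B : ℕ)
  (om om' : Fin N → Bool → Fin B → V → ZMod 2) (l : Fin N) (s : Bool) (e : Finset V),
  (∀ b, ∀ u ∈ e, ∀ v ∈ e, om l s b u + om l s b v = om' l s b u + om' l s b v) →
  phi om l s e = phi om' l s e

/-- PC. Partial colouring. -/
def T_pc : Prop := ∃ C0 : ℝ, 0 < C0 ∧
  ∀ (V E : Type) [Fintype V] [DecidableEq V] [Fintype E] (supp : E → Finset V) (w : E → ℝ) (ε : ℝ),
    (∀ e, 0 < w e) → 0 < ε → ε ≤ 1 →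
    C0 * (Fintype.card V : ℝ) / ε ^ 2 ≤ (Fintype.card E : ℝ) →
    ∃ x : E → ℝ, (∀ e, |x e| ≤ 1) ∧
      (Fintype.card E : ℝ) / 100 ≤ ((univ.filter (fun e => |x e| = 1)).card : ℝ) ∧
      ∀ S : V → ZMod 2, |∑ e, x e * (w e * dl (supp e) S)| ≤ ε * ∑ e, w e * dl (supp e) S

/-- STEP. One sparsification step for weight functions on the finsets of `V`. -/
def T_step : Prop := ∃ C0 : ℝ, 0 < C0 ∧
  ∀ (V : Type) [Fintype V] [DecidableEq V] (w : Finset V → ℝ) (ε : ℝ),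
    (∀ e, 0 ≤ w e) → 0 < ε → ε ≤ 1 →
    C0 * (Fintype.card V : ℝ) / ε ^ 2 ≤ ((univ.filter (fun e => w e ≠ 0)).card : ℝ) →
    ∃ w' : Finset V → ℝ, (∀ e, 0 ≤ w' e) ∧
      ((univ.filter (fun e => w' e ≠ 0)).card : ℝ)
        ≤ (199 / 200) * ((univ.filter (fun e => w e ≠ 0)).card : ℝ) ∧
      ∀ S : V → ZMod 2,
        (1 - ε) * ∑ e, w e * dl e S ≤ ∑ e, w' e * dl e S ∧
        ∑ e, w' e * dl e S ≤ (1 + ε) * ∑ e, w e * dl e S

/-- ITER. Iteration of the step. -/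
def T_iter : Prop := ∃ C : ℝ, 0 < C ∧
  ∀ (V : Type) [Fintype V] [DecidableEq V] (w : Finset V → ℝ), (∀ e, 0 ≤ w e) →
    ∀ ε : ℝ, 0 < ε → ε < 1 / 2 →
    ∃ w' : Finset V → ℝ, (∀ e, 0 ≤ w' e) ∧
      ((univ.filter (fun e => w' e ≠ 0)).card : ℝ) ≤ C * (Fintype.card V : ℝ) / ε ^ 2 ∧
      ∀ S : V → ZMod 2,
        (1 - ε) * ∑ e, w e * dl e S ≤ ∑ e, w' e * dl e S ∧
        ∑ e, w' e * dl e S ≤ (1 + ε) * ∑ e, w e * dl e S

end Pool.Agent.H21.HS
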